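import Mathlib

set_option autoImplicit false

namespace Pool.Agent.Results.MP_390e14_lc.NotVariety

/-- Relational composition. -/
def rcomp {X : Type} (R S : Set (X × X)) : Set (X × X) :=
  {p | ∃ y, (p.1, y) ∈ R ∧ (y, p.2) ∈ S}

/-- `(A, i, c)` embeds in `𝔖(T)` for some transitive relation `T` on some set `X`. -/
def Rep (A : Type) (i c : A → A → A) : Prop :=
  ∃ (X : Type) (T : Set (X × X)) (φ : A → Set (X × X)), rcomp T T ⊆ T ∧
    Function.Injective φ ∧ (∀ a, φ a ⊆ T) ∧
    ∀ a b, φ (i a b) = (T \ φ a) ∪ φ b ∧ φ (c a b) = rcomp (φ a) (φ b)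

theorem quasi {A : Type} {i m : A → A → A} (h : Rep A i m) (t g g1 g2 b u v c : A)
    (h1 : i t (i (i g g1) g1) = i t t) (h2 : i t (i (i g g2) g2) = i t t)
    (h3 : i b (m u v) = i t t) (h4 : i (m g1 u) (i (m g2 u) c) = i t t) :
    i (m t b) (i (i (m g b) (m c v)) (m c v)) = i t t := by
  obtain ⟨X, T, φ, hT, hi, hs, hφ⟩ := h
  have e1 := Set.ext_iff.1 (congrArg φ h1)
  have e2 := Set.ext_iff.1 (congrArg φ h2)
  have e3 := Set.ext_iff.1 (congrArg φ h3)
  have e4 := Set.ext_iff.1 (congrArg φ h4)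
  refine hi (Set.ext fun p => ?_)
  have hm : ∀ a b p, p ∈ rcomp (φ a) (φ b) → p ∈ T := fun a b p h => hs (m a b) ((hφ a b).2 ▸ h)
  simp only [(hφ _ _).1, (hφ _ _).2, Set.mem_union, Set.mem_diff] at e1 e2 e3 e4 ⊢
  have ht := @hs t
  have key : p ∈ rcomp (φ t) (φ b) → p ∈ rcomp (φ g) (φ b) ∨ p ∈ rcomp (φ c) (φ v) := by
    rintro ⟨x, hx, hb⟩
    by_cases hg : (p.1, x) ∈ φ g
    · exact Or.inl ⟨x, hg, hb⟩
    have a1 : (p.1, x) ∈ φ g1 := by have := e1 (p.1, x); have := ht hx; tauto
    have a2 : (p.1, x) ∈ φ g2 := by have := e2 (p.1, x); have := ht hx; tauto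
    obtain ⟨y, hu, hv⟩ : (x, p.2) ∈ rcomp (φ u) (φ v) := by
      have := e3 (x, p.2); have := hs b hb; tauto
    have b1 : (p.1, y) ∈ rcomp (φ g1) (φ u) := ⟨x, a1, hu⟩
    have b2 : (p.1, y) ∈ rcomp (φ g2) (φ u) := ⟨x, a2, hu⟩
    refine Or.inr ⟨y, ?_, hv⟩
    have := e4 (p.1, y); have := hm _ _ _ b1; tauto
  have := @ht p; have := hm c v p; tauto

abbrev D : Type := Fin 4

def gen : Fin 8 → Fin 4 → Fin 4 → Bool :=
  ![![![true, true, false, false], ![false, true, true, true],
      ![false, false, true, true], ![true, true, false, true]],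
    ![![true, false, false, false], ![false, true, true, true],
      ![false, true, true, true], ![true, true, true, true]],
    ![![false, true, false, true], ![true, true, false, true],
      ![true, true, true, true], ![false, true, true, true]],
    ![![true, true, true, false], ![true, true, false, true],
      ![true, true, true, true], ![false, true, true, true]],
    ![![false, true, true, true], ![true, true, true, true],
      ![true, true, true, true], ![true, false, true, false]],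
    ![![true, true, false, true], ![true, false, false, true],
      ![false, true, false, true], ![true, false, true, false]],
    ![![false, true, true, true], ![true, true, true, true],
      ![true, true, true, true], ![false, true, true, true]],
    ![![true, false, false, true], ![false, true, true, true],
      ![true, true, true, true], ![true, true, true, true]]]

def nul : Fin 4 → Fin 4 → Bool :=
  ![![false, false, false, false], ![true, false, false, true],
      ![true, true, false, true], ![false, false, false, false]]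

def g (k : Fin 8) : Set (D × D) := {p | gen k p.1 p.2 = true}
def N : Set (D × D) := {p | nul p.1 p.2 = true}
def imp (R S : Set (D × D)) : Set (D × D) := (Set.univ \ R) ∪ S

theorem mem_imp (R S : Set (D × D)) (p : D × D) : p ∈ imp R S ↔ (p ∈ R → p ∈ S) := by
  simp only [imp, Set.mem_union, Set.mem_diff, Set.mem_univ]; tauto

theorem c0 : ∀ k l : Fin 8, ∃ m : Fin 8, ∀ p r : Fin 4, gen m p r = true →
    ∃ q : Fin 4, gen k p q = true ∧ gen l q r = true := by decide +kernel

theorem c1 : ∀ k l : Fin 8, ∀ p q r : Fin 4, nul q r = true →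
    (∃ q' : Fin 4, gen k p q' = true ∧ gen l q' r = true) ∨ gen l q r = true ∨ nul p r = true := by
  decide +kernel

theorem c2 : ∀ k l : Fin 8, ∀ p q r : Fin 4, nul p q = true →
    (∃ q' : Fin 4, gen k p q' = true ∧ gen l q' r = true) ∨ gen k p q = true ∨ nul p r = true := by
  decide +kernel

def A : Type := {R : Set (D × D) // ∃ k, g k ⊆ R}
def B : Type := {R : Set (D × D) // (∃ k, g k ⊆ R) ∧ N ⊆ R}

theorem imp_ok (R : Set (D × D)) {S : Set (D × D)} : S ⊆ imp R S := Set.subset_union_right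

theorem comp_ok {R S : Set (D × D)} (hR : ∃ k, g k ⊆ R) (hS : ∃ k, g k ⊆ S) :
    ∃ k, g k ⊆ rcomp R S := by
  obtain ⟨k, hk⟩ := hR
  obtain ⟨l, hl⟩ := hS
  obtain ⟨m, hm⟩ := c0 k l
  refine ⟨m, fun p hp => ?_⟩
  obtain ⟨q, h1, h2⟩ := hm _ _ hp
  exact ⟨q, hk h1, hl h2⟩

def iA (R S : A) : A := ⟨imp R.1 S.1, S.2.imp fun _ h => h.trans (imp_ok _)⟩
def cA (R S : A) : A := ⟨rcomp R.1 S.1, comp_ok R.2 S.2⟩
def iB (R S : B) : B :=
  ⟨imp R.1 S.1, S.2.1.imp fun _ h => h.trans (imp_ok _), S.2.2.trans (imp_ok _)⟩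
def cB (R S : B) : B := ⟨rcomp R.1 S.1 ∪ N,
  (comp_ok R.2.1 S.2.1).imp fun _ h => h.trans Set.subset_union_left, Set.subset_union_right⟩
def hom (R : A) : B :=
  ⟨R.1 ∪ N, R.2.imp fun _ h => h.trans Set.subset_union_left, Set.subset_union_right⟩

theorem hom_c (R S : A) : hom (cA R S) = cB (hom R) (hom S) := by
  refine Subtype.ext (Set.Subset.antisymm ?_ ?_)
  · rintro p (⟨q, h1, h2⟩ | h)
    · exact Or.inl ⟨q, Or.inl h1, Or.inl h2⟩
    · exact Or.inr h
  · obtain ⟨k, hk⟩ := R.2
    obtain ⟨l, hl⟩ := S.2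
    have key : ∀ p q r : D, (p, q) ∈ R.1 → (q, r) ∈ S.1 ∪ N → (p, r) ∈ rcomp R.1 S.1 ∪ N := by
      rintro p q r h1 (h2 | h2)
      · exact Or.inl ⟨q, h1, h2⟩
      · rcases c1 k l p q r h2 with ⟨q', a, b⟩ | a | a
        · exact Or.inl ⟨q', hk a, hl b⟩
        · exact Or.inl ⟨q, h1, hl a⟩
        · exact Or.inr a
    rintro ⟨p, r⟩ (⟨q, h1 | h1, h2⟩ | h)
    · exact key _ _ _ h1 h2
    · rcases c2 k l p q r h1 with ⟨q', a, b⟩ | a | a
      · exact Or.inl ⟨q', hk a, hl b⟩
      · exact key _ _ _ (hk a) h2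
      · exact Or.inr a
    · exact Or.inr h

def gB (k : Fin 8) : B := hom ⟨g k, k, subset_rfl⟩

theorem result : ∃ (A B : Type) (iA cA : A → A → A) (iB cB : B → B → B) (h : A → B),
    Function.Surjective h ∧ (∀ a b, h (iA a b) = iB (h a) (h b) ∧ h (cA a b) = cB (h a) (h b)) ∧
    Rep A iA cA ∧ ¬ Rep B iB cB := by
  refine ⟨A, B, iA, cA, iB, cB, hom, fun S => ⟨⟨S.1, S.2.1⟩,
    Subtype.ext (Set.union_eq_left.2 S.2.2)⟩, fun R S => ⟨Subtype.ext (Set.ext fun p => ?_),
    hom_c R S⟩, ⟨D, Set.univ, fun R => R.1, Set.subset_univ _, fun R S h =>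
    Subtype.ext h, fun _ => Set.subset_univ _, fun _ _ => ⟨rfl, rfl⟩⟩, fun h => ?_⟩
  · simp only [hom, iA, iB, Set.mem_union, mem_imp]; tauto
  · have := quasi h (gB 0) (gB 1) (gB 2) (gB 3) (gB 4) (gB 5) (gB 6) (gB 7) ?_ ?_ ?_ ?_
    · have h2 := Set.ext_iff.1 (congrArg Subtype.val this) ((0 : Fin 4), (0 : Fin 4))
      revert h2
      simp only [gB, hom, iB, cB, mem_imp, Set.mem_union, rcomp, g, N, Set.mem_setOf_eq]
      decide
    all_goals
      refine Subtype.ext (Set.ext fun p => ?_)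
      simp only [gB, hom, iB, cB, mem_imp, Set.mem_union, rcomp, g, N, Set.mem_setOf_eq]
      revert p
      decide

end Pool.Agent.Results.MP_390e14_lc.NotVariety
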